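import Pool.Agent.H89.FM.Targets2
import Pool.Agent.H26.CN.EPS

/-!
# The Hecke relation for the Epstein zeta functions of the sublattices
-/

set_option autoImplicit false

open MeasureTheory Set Filter
open scoped Real Matrix MatrixGroups

namespace Pool.Agent.H95.FM

open Pool.Agent.H31.CN Pool.Agent.H89.FM

/-! ### The lattices -/

theorem mem_of_mul (hFLS : T_FLS) {n k : ℕ} {L : Pool.Agent.H89.FM.Lat} (hn : 1 ≤ n) (hL : L ∈ Ls n)
    (hc : Nat.Coprime k n) {v : ℤ × ℤ} (hv : (k : ℤ) • v ∈ L) : v ∈ L := by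
  have h1 : (n : ℤ) • v ∈ L := (hFLS n L hn).2 hL v
  obtain ⟨a, b, hab⟩ := (Nat.isCoprime_iff_coprime.2 hc : IsCoprime (k : ℤ) (n : ℤ))
  have h2 : v = a • ((k : ℤ) • v) + b • ((n : ℤ) • v) := by
    rw [smul_smul, smul_smul, ← add_smul, hab, one_smul]
  rw [h2]
  exact L.add_mem (L.zsmul_mem hv a) (L.zsmul_mem h1 b)

open Classical in
theorem sum_lattices (hFLS : T_FLS) (hCRT : T_CRT) {n g : ℕ} {L' : Pool.Agent.H89.FM.Lat}
    (hsq : Squarefree (n * g)) (hL' : L' ∈ Ls n) {M : Type} [AddCommMonoid M] (F : Pool.Agent.H89.FM.Lat → M) :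
    ∑ L ∈ (Ls (n * g)).filter (fun L => L ≤ L'), F L = ∑ L₂ ∈ Ls g, F (L' ⊓ L₂) := by
  have hcop : Nat.Coprime n g := Nat.coprime_of_squarefree_mul hsq
  have hn : 1 ≤ n := Nat.one_le_iff_ne_zero.2 (fun h => by
    rw [h, zero_mul] at hsq; exact not_squarefree_zero hsq)
  have hg : 1 ≤ g := Nat.one_le_iff_ne_zero.2 (fun h => by
    rw [h, mul_zero] at hsq; exact not_squarefree_zero hsq)
  obtain ⟨c1, c2, c3⟩ := hCRT n g hn hg hcop
  symm
  refine Finset.sum_bij (fun L₂ _ => L' ⊓ L₂) ?_ ?_ ?_ ?_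
  · intro L₂ h2
    exact Finset.mem_filter.2 ⟨c1 L' hL' L₂ h2, inf_le_left⟩
  · intro L₂ h2 L₂' h2' he
    exact (c3 L' hL' L₂ h2 L' hL' L₂' h2' he).2
  · intro L hL
    obtain ⟨hL1, hL2⟩ := Finset.mem_filter.1 hL
    obtain ⟨L₁, h1, L₂, h2, he⟩ := c2 L hL1
    refine ⟨L₂, h2, ?_⟩
    have hle : L₁ ≤ L' := by
      intro v hv
      have h3 : (g : ℤ) • v ∈ L := by
        rw [he]
        exact ⟨L₁.zsmul_mem hv _, (hFLS g L₂ hg).2 h2 v⟩
      exact mem_of_mul hFLS hn hL' hcop.symm (hL2 h3)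
    have hi1 : L₁.index = n := (hFLS n L₁ hn).1.1 h1
    have hi2 : L'.index = n := (hFLS n L' hn).1.1 hL'
    have h4 := AddSubgroup.relIndex_mul_index hle
    rw [hi1, hi2] at h4
    have h5 : L₁.relIndex L' = 1 := by
      have : L₁.relIndex L' * n = 1 * n := by rw [h4, one_mul]
      exact Nat.eq_of_mul_eq_mul_right hn this
    have h6 : L' ≤ L₁ := AddSubgroup.relIndex_eq_one.1 h5
    rw [he, le_antisymm hle h6]
  · intro L₂ h2
    rfl

/-! ### The terms -/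

theorem qz_eq (x y : ℝ) (hy : 0 < y) (v : ℤ × ℤ) : qz x y v = qd (1 / (2 * y)) (x / y) 1 v := by
  unfold qz qd
  field_simp
  ring

theorem phc_bound (t : ℝ) (ht : 0 < t) : ‖phc (t : ℂ)‖ ≤ 36 / (2 * π * t) ^ 2 := by
  obtain ⟨X, hX⟩ : ∃ X : ℝ, X = 2 * π * t := ⟨_, rfl⟩
  have hX0 : 0 < X := by rw [hX]; positivity
  have h1 : phc (t : ℂ) = (((X ^ 2 - 2 * X) * Real.exp (-X) : ℝ) : ℂ) := by
    unfold phc
    rw [hX]
    push_cast
    ring_nf
  rw [h1, Complex.norm_real, Real.norm_eq_abs, abs_mul, abs_of_pos (Real.exp_pos _), ← hX]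
  have h2 : |X ^ 2 - 2 * X| ≤ X ^ 2 + 2 * X := by
    rw [abs_le]
    constructor <;> nlinarith
  have h3 : X ^ 4 ≤ 24 * Real.exp X := by
    have := Real.pow_div_factorial_le_exp X hX0.le 4
    rw [div_le_iff₀ (by positivity)] at this
    norm_num [Nat.factorial] at this
    linarith
  have h4 : X ^ 3 ≤ 6 * Real.exp X := by
    have := Real.pow_div_factorial_le_exp X hX0.le 3
    rw [div_le_iff₀ (by positivity)] at this
    norm_num [Nat.factorial] at this
    linarith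
  rw [le_div_iff₀ (by positivity), Real.exp_neg]
  have h5 : (X ^ 2 + 2 * X) * (Real.exp X)⁻¹ * X ^ 2 ≤ 36 := by
    have : (X ^ 2 + 2 * X) * (Real.exp X)⁻¹ * X ^ 2 = (X ^ 4 + 2 * X ^ 3) / Real.exp X := by
      field_simp
    rw [this, div_le_iff₀ (Real.exp_pos _)]
    linarith
  refine le_trans ?_ h5
  have : 0 ≤ (Real.exp X)⁻¹ * X ^ 2 := by positivity
  nlinarith

open Classical in
theorem pst_summable (n : ℕ) (L : Pool.Agent.H89.FM.Lat) (x y u : ℝ) (hn : 1 ≤ n) (hy : 0 < y) (hu : 0 < u) :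
    Summable (fun v => pst n L x y u v) := by
  have hn' : (0 : ℝ) < n := by exact_mod_cast hn
  have h1 := Pool.Agent.H26.CN.EPS.summable_pow (A := 1 / (2 * y)) (B := x / y) (Δ := 1)
    (by positivity) one_pos (σ := 2) (by norm_num)
  have h2 := h1.mul_left (36 * (n / u) ^ 2)
  refine Summable.of_norm_bounded h2 fun v => ?_
  unfold pst
  by_cases hv : v ∈ L ∧ v ≠ 0
  · rw [if_pos hv, if_neg hv.2]
    have hq : 0 < qz x y v := by
      rw [qz_eq x y hy]
      obtain ⟨c, hc, h⟩ := Pool.Agent.H26.CN.EPS.qd_lower (1 / (2 * y)) (x / y) 1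
        (by positivity) one_pos
      have h3 := h v
      have h4 := Pool.Agent.H26.CN.EPS.norm_ge_one hv.2
      have : 0 < c * ‖v‖ ^ 2 := by positivity
      linarith
    have h3 : (u : ℂ) * ((qz x y v / n : ℝ) : ℂ) = ((u * (qz x y v / n) : ℝ) : ℂ) := by
      push_cast; ring
    rw [h3]
    refine (phc_bound _ (by positivity)).trans (le_of_eq ?_)
    unfold Pool.Agent.H26.CN.EPS.eq'
    rw [← qz_eq x y hy, Real.sqrt_one]
    have h4 : ((2 * π / 1 * qz x y v) ^ (2 : ℝ) : ℝ) = (2 * π / 1 * qz x y v) ^ 2 := by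
      exact_mod_cast Real.rpow_natCast (2 * π / 1 * qz x y v) 2
    rw [h4]
    field_simp
  · rw [if_neg hv, norm_zero]
    by_cases hv0 : v = 0
    · rw [if_pos hv0]; simp
    · rw [if_neg hv0]
      have : 0 ≤ Pool.Agent.H26.CN.EPS.eq' (1 / (2 * y)) (x / y) 1 v := by
        unfold Pool.Agent.H26.CN.EPS.eq'
        rw [← qz_eq x y hy]
        have : 0 ≤ qz x y v := by unfold qz; positivity
        positivity
      positivity

theorem qz_smul (x y : ℝ) (k : ℤ) (v : ℤ × ℤ) : qz x y (k • v) = (k : ℝ) ^ 2 * qz x y v := by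
  unfold qz
  simp only [Prod.smul_fst, Prod.smul_snd, smul_eq_mul]
  push_cast
  ring

open Classical in
/-- the sum over the multiples of `k` -/
theorem sum_mult (hFLS : T_FLS) {n k h : ℕ} {L' : Pool.Agent.H89.FM.Lat} (x y u : ℝ) (hn : 1 ≤ n)
    (hL' : L' ∈ Ls n) (hk : 1 ≤ k) (hh : 1 ≤ h) (hc : Nat.Coprime k n) :
    ∑' v : ℤ × ℤ, (if (k : ℤ) ∣ v.1 ∧ (k : ℤ) ∣ v.2 then pst (n * (k * h)) L' x y u v else 0) =
      Psr n L' x y (u * ((k : ℝ) / h : ℝ) : ℂ) := by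
  have hk' : (k : ℤ) ≠ 0 := by exact_mod_cast (by omega : k ≠ 0)
  have hinj : Function.Injective (fun v : ℤ × ℤ => (k : ℤ) • v) := by
    intro v w hvw
    have h1 := congrArg Prod.fst hvw
    have h2 := congrArg Prod.snd hvw
    simp only [Prod.smul_fst, Prod.smul_snd, smul_eq_mul] at h1 h2
    exact Prod.ext (mul_left_cancel₀ hk' h1) (mul_left_cancel₀ hk' h2)
  unfold Psr
  rw [← hinj.tsum_eq]
  · apply tsum_congr
    intro v
    have hd : (k : ℤ) ∣ ((k : ℤ) • v).1 ∧ (k : ℤ) ∣ ((k : ℤ) • v).2 := by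
      simp only [Prod.smul_fst, Prod.smul_snd, smul_eq_mul]
      exact ⟨dvd_mul_right _ _, dvd_mul_right _ _⟩
    rw [if_pos hd]
    unfold pst
    have hiff : ((k : ℤ) • v ∈ L' ∧ (k : ℤ) • v ≠ 0) ↔ (v ∈ L' ∧ v ≠ 0) := by
      constructor
      · rintro ⟨h1, h2⟩
        exact ⟨mem_of_mul hFLS hn hL' hc h1, fun h0 => h2 (by rw [h0, smul_zero])⟩
      · rintro ⟨h1, h2⟩
        refine ⟨L'.zsmul_mem h1 _, fun h0 => h2 (hinj ?_)⟩
        simp only [h0, smul_zero]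
    by_cases hv : v ∈ L' ∧ v ≠ 0
    · rw [if_pos (hiff.2 hv), if_pos hv, qz_smul]
      congr 1
      have h1 : (k : ℂ) ≠ 0 := by exact_mod_cast (by omega : k ≠ 0)
      have h2 : (h : ℂ) ≠ 0 := by exact_mod_cast (by omega : h ≠ 0)
      have h3 : (n : ℂ) ≠ 0 := by exact_mod_cast (by omega : n ≠ 0)
      push_cast
      field_simp
    · rw [if_neg (fun h0 => hv (hiff.1 h0)), if_neg hv]
  · intro v hv
    by_contra hne
    apply hv
    have : ¬ ((k : ℤ) ∣ v.1 ∧ (k : ℤ) ∣ v.2) := by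
      rintro ⟨⟨a, ha⟩, ⟨b, hb⟩⟩
      exact hne ⟨(a, b), Prod.ext ha.symm hb.symm⟩
    simp only [if_neg this]

open Classical in
/-- the relation for the functions `Psr` -/
theorem psr_rel (hFLS : T_FLS) (hCRT : T_CRT) (hCNL : T_CNL) (n g : ℕ) (L' : Pool.Agent.H89.FM.Lat) (x y u : ℝ)
    (hsq : Squarefree (n * g)) (hL' : L' ∈ Ls n) (hy : 0 < y) (hu : 0 < u) :
    ∑ L ∈ (Ls (n * g)).filter (fun L => L ≤ L'), Psr (n * g) L x y u =
      ∑ k ∈ g.divisors, (k : ℂ) * Psr n L' x y (u * ((k : ℝ) / (g / k : ℕ) : ℝ) : ℂ) := by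
  have hcop : Nat.Coprime n g := Nat.coprime_of_squarefree_mul hsq
  have hn : 1 ≤ n := Nat.one_le_iff_ne_zero.2 (fun h => by
    rw [h, zero_mul] at hsq; exact not_squarefree_zero hsq)
  have hg : 1 ≤ g := Nat.one_le_iff_ne_zero.2 (fun h => by
    rw [h, mul_zero] at hsq; exact not_squarefree_zero hsq)
  have hng : 1 ≤ n * g := Nat.mul_pos hn hg
  have hsg : Squarefree g := hsq.of_mul_right
  rw [sum_lattices hFLS hCRT hsq hL']
  unfold Psr
  rw [← Summable.tsum_finsetSum (fun L _ => pst_summable (n * g) _ x y u hng hy hu)]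
  have hS : ∀ k ∈ g.divisors, Summable (fun v : ℤ × ℤ =>
      if (k : ℤ) ∣ v.1 ∧ (k : ℤ) ∣ v.2 then pst (n * g) L' x y u v else 0) := by
    intro k _
    have h1 := (pst_summable (n * g) L' x y u hng hy hu).norm
    refine Summable.of_norm_bounded h1 fun v => ?_
    split_ifs
    · exact le_rfl
    · rw [norm_zero]; exact norm_nonneg _
  have hterm : ∀ v : ℤ × ℤ, ∑ L₂ ∈ Ls g, pst (n * g) (L' ⊓ L₂) x y u v =
      ∑ k ∈ g.divisors, (k : ℂ) *
        (if (k : ℤ) ∣ v.1 ∧ (k : ℤ) ∣ v.2 then pst (n * g) L' x y u v else 0) := by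
    intro v
    have h1 : ∀ L₂ ∈ Ls g, pst (n * g) (L' ⊓ L₂) x y u v =
        if v ∈ L₂ then pst (n * g) L' x y u v else 0 := by
      intro L₂ _
      unfold pst
      by_cases h2 : v ∈ L₂
      · rw [if_pos h2]
        by_cases h3 : v ∈ L' ∧ v ≠ 0
        · rw [if_pos h3, if_pos ⟨AddSubgroup.mem_inf.2 ⟨h3.1, h2⟩, h3.2⟩]
        · rw [if_neg h3, if_neg]
          rintro ⟨h4, h5⟩
          exact h3 ⟨(AddSubgroup.mem_inf.1 h4).1, h5⟩
      · rw [if_neg h2, if_neg]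
        rintro ⟨h4, h5⟩
        exact h2 (AddSubgroup.mem_inf.1 h4).2
    rw [Finset.sum_congr rfl h1, ← Finset.sum_filter, Finset.sum_const, hCNL g v hsg,
      nsmul_eq_mul]
    push_cast
    rw [Finset.sum_mul, Finset.sum_filter]
    apply Finset.sum_congr rfl
    intro k _
    split_ifs <;> simp
  rw [tsum_congr hterm, Summable.tsum_finsetSum (fun k hk => (hS k hk).mul_left _)]
  apply Finset.sum_congr rfl
  intro k hk
  have hk1 : 1 ≤ k := Nat.pos_of_mem_divisors hk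
  have hkd : k ∣ g := Nat.dvd_of_mem_divisors hk
  have hgk : g = k * (g / k) := (Nat.mul_div_cancel' hkd).symm
  have hh : 1 ≤ g / k := Nat.div_pos (Nat.le_of_dvd hg hkd) hk1
  have hc : Nat.Coprime k n := (Nat.Coprime.coprime_dvd_right hkd hcop).symm
  rw [tsum_mul_left]
  congr 1
  have := sum_mult hFLS x y u hn hL' hk1 hh hc
  rw [← hgk] at this
  rw [this]
  rfl

theorem pf_HEC (hFLS : T_FLS) (hCRT : T_CRT) (hCNL : T_CNL) (hMEL : T_MEL) (_hPSB : T_PSB) :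
    T_HEC := by
  classical
  intro n g L' x y s hsq hL' hy
  have hn : 1 ≤ n := Nat.one_le_iff_ne_zero.2 (fun h => by
    rw [h, zero_mul] at hsq; exact not_squarefree_zero hsq)
  have hg : 1 ≤ g := Nat.one_le_iff_ne_zero.2 (fun h => by
    rw [h, mul_zero] at hsq; exact not_squarefree_zero hsq)
  have hng : 1 ≤ n * g := Nat.mul_pos hn hg
  have h1 : ∀ L ∈ (Ls (n * g)).filter (fun L => L ≤ L'),
      Ez s (n * g) L x y = ∫ u in Ioi (0 : ℝ), Psr (n * g) L x y u * (u : ℂ) ^ (s - 1) :=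
    fun L hL => (hMEL (n * g) L x y s hng (Finset.mem_filter.1 hL).1 hy).2
  rw [Finset.sum_congr rfl h1, ← integral_finsetSum]
  swap
  · intro L hL
    exact (hMEL (n * g) L x y s hng (Finset.mem_filter.1 hL).1 hy).1
  obtain ⟨hI, hE⟩ := hMEL n L' x y s hn hL' hy
  -- the scaled integrals
  have hsc : ∀ b : ℝ, 0 < b →
      IntegrableOn (fun u : ℝ => Psr n L' x y (u * (b : ℝ) : ℂ) * (u : ℂ) ^ (s - 1)) (Ioi 0) ∧
      ∫ u in Ioi (0 : ℝ), Psr n L' x y (u * (b : ℝ) : ℂ) * (u : ℂ) ^ (s - 1) =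
        (b : ℂ) ^ (-s) * Ez s n L' x y := by
    intro b hb
    have hbc : (b : ℂ) ≠ 0 := Complex.ofReal_ne_zero.2 hb.ne'
    obtain ⟨F, hF⟩ : ∃ F : ℝ → ℂ, F = fun u : ℝ => Psr n L' x y u * (u : ℂ) ^ (s - 1) := ⟨_, rfl⟩
    have hcomp : ∀ u ∈ Ioi (0 : ℝ), Psr n L' x y (u * (b : ℝ) : ℂ) * (u : ℂ) ^ (s - 1) =
        (b : ℂ) ^ (-(s - 1)) * F (b * u) := by
      intro u hu
      have hu0 : (0 : ℝ) < u := hu
      rw [hF]
      simp only
      have e1 : ((b * u : ℝ) : ℂ) = (u : ℂ) * (b : ℂ) := by push_cast; ring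
      have e2 : ((b * u : ℝ) : ℂ) ^ (s - 1) = (b : ℂ) ^ (s - 1) * (u : ℂ) ^ (s - 1) := by
        rw [Complex.ofReal_mul, Complex.mul_cpow_ofReal_nonneg hb.le hu0.le]
      rw [e2, e1, Complex.cpow_neg]
      have e3 : (b : ℂ) ^ (s - 1) ≠ 0 := by
        rw [Complex.cpow_def_of_ne_zero hbc]
        exact Complex.exp_ne_zero _
      field_simp
    have hI' : IntegrableOn F (Ioi 0) := by rw [hF]; exact hI
    have hI2 : IntegrableOn (fun u => F (b * u)) (Ioi 0) := by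
      rw [integrableOn_Ioi_comp_mul_left_iff F 0 hb, mul_zero]
      exact hI'
    constructor
    · have hI3 : IntegrableOn (fun u => (b : ℂ) ^ (-(s - 1)) * F (b * u)) (Ioi 0) :=
        Integrable.const_mul hI2 _
      exact hI3.congr_fun (fun u hu => (hcomp u hu).symm) measurableSet_Ioi
    · rw [setIntegral_congr_fun measurableSet_Ioi hcomp, integral_const_mul,
        integral_comp_mul_left_Ioi F 0 hb, mul_zero]
      have h3 : ∫ u in Ioi (0 : ℝ), F u = Ez s n L' x y := by rw [hE, hF]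
      rw [h3, Complex.real_smul]
      have e4 : (b : ℂ) ^ (-s) = (b : ℂ) ^ (-(s - 1)) * (b : ℂ)⁻¹ := by
        rw [← Complex.cpow_neg_one, ← Complex.cpow_add _ _ hbc]
        congr 1
        ring
      rw [e4]
      push_cast
      ring
  have h2 : ∀ u ∈ Ioi (0 : ℝ), ∑ L ∈ (Ls (n * g)).filter (fun L => L ≤ L'),
      Psr (n * g) L x y u * (u : ℂ) ^ (s - 1) =
      ∑ k ∈ g.divisors, (k : ℂ) * (Psr n L' x y (u * ((k : ℝ) / (g / k : ℕ) : ℝ) : ℂ) *
        (u : ℂ) ^ (s - 1)) := by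
    intro u hu
    rw [← Finset.sum_mul, psr_rel hFLS hCRT hCNL n g L' x y u hsq hL' hy hu, Finset.sum_mul]
    apply Finset.sum_congr rfl
    intro k _
    ring
  have hb : ∀ k ∈ g.divisors, (0 : ℝ) < (k : ℝ) / (g / k : ℕ) := by
    intro k hk
    have hk1 : 0 < k := Nat.pos_of_mem_divisors hk
    have hh : 0 < g / k := Nat.div_pos (Nat.le_of_dvd hg (Nat.dvd_of_mem_divisors hk)) hk1
    positivity
  rw [setIntegral_congr_fun measurableSet_Ioi h2, integral_finsetSum, Finset.sum_mul]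
  · apply Finset.sum_congr rfl
    intro k hk
    rw [integral_const_mul, (hsc _ (hb k hk)).2]
    have hk1 : 0 < k := Nat.pos_of_mem_divisors hk
    have hh : 0 < g / k := Nat.div_pos (Nat.le_of_dvd hg (Nat.dvd_of_mem_divisors hk)) hk1
    have hkc : (k : ℂ) ≠ 0 := by exact_mod_cast hk1.ne'
    have e1 : (((k : ℝ) / (g / k : ℕ) : ℝ) : ℂ) ^ (-s) =
        (k : ℂ) ^ (-s) * ((g / k : ℕ) : ℂ) ^ s := by
      rw [div_eq_mul_inv, Complex.ofReal_mul, Complex.mul_cpow_ofReal_nonneg (by positivity)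
        (by positivity), Complex.ofReal_inv, Complex.inv_cpow _ _ ?_, ← Complex.cpow_neg, neg_neg]
      · push_cast
        rfl
      · rw [Complex.ofReal_natCast, Complex.natCast_arg]
        exact Real.pi_pos.ne
    rw [e1, show (1 : ℂ) - s = 1 + (-s) by ring, Complex.cpow_add _ _ hkc, Complex.cpow_one]
    ring
  · intro k hk
    exact (hsc _ (hb k hk)).1.const_mul _

end Pool.Agent.H95.FM
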